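import Pool.Agent.Helper36.RI.Goals

/-!
PACKET INS: the system for (frame, coframe, curvature operator) is a mixed system with polynomial
coefficients.
-/

set_option autoImplicit false

namespace Pool.Agent.Helper2.RI

open Set Filter Topology MeasureTheory Pool.Agent.Helper36.RS Pool.Agent.Helper73.RF
open Pool.Agent.Helper36.RI
open Pool.Agent.Helper47.RF hiding eps

namespace INS

/-- polynomial in the variables `z` -/
def Pl {Ω σ : Type} (z : Ω → σ → XS) (g : Ω → XS) : Prop :=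
  ∃ p : MvPolynomial σ ℝ, ∀ ω, g ω = MvPolynomial.aeval (z ω) p

section closure

variable {Ω σ : Type} {z : Ω → σ → XS}

lemma Pl.var (s : σ) : Pl z (fun ω => z ω s) :=
  ⟨MvPolynomial.X s, fun ω => by rw [MvPolynomial.aeval_X]⟩

lemma Pl.add {f g : Ω → XS} (hf : Pl z f) (hg : Pl z g) : Pl z (fun ω => f ω + g ω) := by
  obtain ⟨p, hp⟩ := hf
  obtain ⟨q, hq⟩ := hg
  exact ⟨p + q, fun ω => by simp only [map_add, hp, hq]⟩

lemma Pl.sub {f g : Ω → XS} (hf : Pl z f) (hg : Pl z g) : Pl z (fun ω => f ω - g ω) := by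
  obtain ⟨p, hp⟩ := hf
  obtain ⟨q, hq⟩ := hg
  exact ⟨p - q, fun ω => by simp only [map_sub, hp, hq]⟩

lemma Pl.neg {f : Ω → XS} (hf : Pl z f) : Pl z (fun ω => - f ω) := by
  obtain ⟨p, hp⟩ := hf
  exact ⟨-p, fun ω => by simp only [map_neg, hp]⟩

lemma Pl.mul {f g : Ω → XS} (hf : Pl z f) (hg : Pl z g) : Pl z (fun ω => f ω * g ω) := by
  obtain ⟨p, hp⟩ := hf
  obtain ⟨q, hq⟩ := hg
  exact ⟨p * q, fun ω => by simp only [map_mul, hp, hq]⟩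

lemma Pl.smul (r : ℝ) {f : Ω → XS} (hf : Pl z f) : Pl z (fun ω => r • f ω) := by
  obtain ⟨p, hp⟩ := hf
  exact ⟨r • p, fun ω => by simp only [map_smul, hp]⟩

lemma Pl.zero : Pl z (fun _ => 0) := ⟨0, fun ω => by rw [map_zero]⟩

lemma Pl.pow {f : Ω → XS} (hf : Pl z f) (n : ℕ) : Pl z (fun ω => f ω ^ n) := by
  obtain ⟨p, hp⟩ := hf
  exact ⟨p ^ n, fun ω => by simp only [map_pow, hp]⟩

lemma Pl.sum {ι : Type} (s : Finset ι) (f : ι → Ω → XS) (h : ∀ i, Pl z (f i)) :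
    Pl z (fun ω => ∑ i ∈ s, f i ω) := by
  choose p hp using h
  exact ⟨∑ i ∈ s, p i, fun ω => by
    rw [map_sum]
    exact Finset.sum_congr rfl fun i _ => hp i ω⟩

lemma Pl.ite (c : Prop) [Decidable c] {f g : Ω → XS} (hf : Pl z f) (hg : Pl z g) :
    Pl z (fun ω => if c then f ω else g ω) := by
  split_ifs
  · exact hf
  · exact hg

end closure

/-- parameters -/
abbrev Om : Type := (II → XS) × (Fin 6 → XS)

noncomputable def z0 : Om → II ⊕ Fin 6 → XS := fun ω => Sum.elim ω.1 ω.2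

noncomputable def z1 : Om → II ⊕ ((Fin 3 × II) ⊕ Fin 6) → XS := fun ω => zj ω.1 ω.2

noncomputable def z2 : Om → (II ⊕ ((Fin 3 × II) ⊕ Fin 6)) ⊕ (Fin 3 × Fin 6) → XS :=
  fun ω => zj' ω.1 ω.2

lemma lift {g : Om → XS} (h : Pl z1 g) : Pl z2 g := by
  obtain ⟨p, hp⟩ := h
  refine ⟨MvPolynomial.rename Sum.inl p, fun ω => ?_⟩
  rw [hp, MvPolynomial.aeval_rename]
  rfl

lemma A1 (c i : Fin 3) : Pl z1 (fun ω => uA ω.1 c i) := Pl.var (z := z1) (Sum.inl (Sum.inl (c, i)))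

lemma t1 (c i : Fin 3) : Pl z1 (fun ω => uth ω.1 c i) := Pl.var (z := z1) (Sum.inl (Sum.inr (c, i)))

lemma P1 (a b : Fin 3) : Pl z1 (fun ω => vP ω.2 a b) :=
  Pl.var (z := z1) (Sum.inr (Sum.inr (idx a b)))

lemma EA1 (k c i : Fin 3) : Pl z1 (fun ω => Ed k (uA ω.1 c i)) :=
  Pl.var (z := z1) (Sum.inr (Sum.inl (k, Sum.inl (c, i))))

lemma EP2 (k a b : Fin 3) : Pl z2 (fun ω => Ed k (vP ω.2 a b)) :=
  Pl.var (z := z2) (Sum.inr (k, idx a b))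

lemma C1 (a b c : Fin 3) : Pl z1 (fun ω => FR.C Ed (uA ω.1) (uth ω.1) a b c) := by
  unfold FR.C FR.Fd
  refine Pl.sum _ _ fun j => Pl.mul (Pl.add (Pl.sub ?_ ?_) (Pl.smul _ ?_)) (t1 _ _)
  · exact Pl.sum _ _ fun i => Pl.mul (A1 _ _) (EA1 _ _ _)
  · exact Pl.sum _ _ fun i => Pl.mul (A1 _ _) (EA1 _ _ _)
  · exact Pl.sum _ _ fun i => Pl.sum _ _ fun k => Pl.smul _ (Pl.mul (A1 _ _) (A1 _ _))

lemma Gam1 (a b c : Fin 3) : Pl z1 (fun ω => FR.Gam Ed (uA ω.1) (uth ω.1) a b c) := by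
  unfold FR.Gam
  exact Pl.smul _ (Pl.add (Pl.sub (C1 _ _ _) (C1 _ _ _)) (C1 _ _ _))

lemma nab2 (c a b : Fin 3) :
    Pl z2 (fun ω => nab Ed (uA ω.1) (uth ω.1) (vP ω.2) c a b) := by
  unfold nab FR.Fd
  refine Pl.sub (Pl.sub ?_ ?_) ?_
  · exact Pl.sum _ _ fun i => Pl.mul (lift (A1 _ _)) (EP2 _ _ _)
  · exact Pl.sum _ _ fun d => Pl.mul (lift (Gam1 _ _ _)) (lift (P1 _ _))
  · exact Pl.sum _ _ fun d => Pl.mul (lift (Gam1 _ _ _)) (lift (P1 _ _))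

lemma tr1 : Pl z1 (fun ω => trP (vP ω.2)) := by
  unfold trP
  exact Pl.sum _ _ fun c => P1 _ _

lemma QP1 (a b : Fin 3) : Pl z1 (fun ω => QP (vP ω.2) a b) := by
  unfold QP
  refine Pl.add (Pl.sub (Pl.smul _ ?_) (Pl.smul _ ?_)) (Pl.ite _ (Pl.sub ?_ ?_) Pl.zero)
  · exact Pl.sum _ _ fun c => Pl.mul (P1 _ _) (P1 _ _)
  · exact Pl.mul tr1 (P1 _ _)
  · exact Pl.pow tr1 2
  · exact Pl.sum _ _ fun c => Pl.sum _ _ fun d => Pl.pow (P1 _ _) 2

/-- the coefficient `β` -/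
noncomputable def be (ω : Om) (i a b : Fin 3) : XS :=
  - ∑ c, uA ω.1 c i * (∑ d, FR.Gam Ed (uA ω.1) (uth ω.1) c a d * vP ω.2 d b +
    ∑ d, FR.Gam Ed (uA ω.1) (uth ω.1) c b d * vP ω.2 a d)

lemma be1 (i a b : Fin 3) : Pl z1 (fun ω => be ω i a b) := by
  unfold be
  refine Pl.neg (Pl.sum _ _ fun c => Pl.mul (A1 _ _) (Pl.add ?_ ?_))
  · exact Pl.sum _ _ fun d => Pl.mul (Gam1 _ _ _) (P1 _ _)
  · exact Pl.sum _ _ fun d => Pl.mul (Gam1 _ _ _) (P1 _ _)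

/-- the lower order terms -/
noncomputable def Wf (ω : Om) (a b : Fin 3) : XS :=
  (∑ c, (- (∑ i, Ed i (uA ω.1 c i) * nab Ed (uA ω.1) (uth ω.1) (vP ω.2) c a b)
    - ∑ d, FR.Gam Ed (uA ω.1) (uth ω.1) c c d * nab Ed (uA ω.1) (uth ω.1) (vP ω.2) d a b
    - ∑ d, FR.Gam Ed (uA ω.1) (uth ω.1) c a d * nab Ed (uA ω.1) (uth ω.1) (vP ω.2) c d b
    - ∑ d, FR.Gam Ed (uA ω.1) (uth ω.1) c b d * nab Ed (uA ω.1) (uth ω.1) (vP ω.2) c a d))
    + QP (vP ω.2) a b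

lemma Wf2 (a b : Fin 3) : Pl z2 (fun ω => Wf ω a b) := by
  unfold Wf
  refine Pl.add (Pl.sum _ _ fun c => Pl.sub (Pl.sub (Pl.sub (Pl.neg ?_) ?_) ?_) ?_)
    (lift (QP1 a b))
  · exact Pl.sum _ _ fun i => Pl.mul (lift (EA1 _ _ _)) (nab2 _ _ _)
  · exact Pl.sum _ _ fun i => Pl.mul (lift (Gam1 _ _ _)) (nab2 _ _ _)
  · exact Pl.sum _ _ fun i => Pl.mul (lift (Gam1 _ _ _)) (nab2 _ _ _)
  · exact Pl.sum _ _ fun i => Pl.mul (lift (Gam1 _ _ _)) (nab2 _ _ _)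

lemma A0 (c i : Fin 3) : Pl z0 (fun ω => uA ω.1 c i) := Pl.var (z := z0) (Sum.inl (Sum.inl (c, i)))

lemma t0 (c i : Fin 3) : Pl z0 (fun ω => uth ω.1 c i) := Pl.var (z := z0) (Sum.inl (Sum.inr (c, i)))

lemma P0 (a b : Fin 3) : Pl z0 (fun ω => vP ω.2 a b) :=
  Pl.var (z := z0) (Sum.inr (idx a b))

lemma S0 (a b : Fin 3) : Pl z0 (fun ω => Sf (vP ω.2) a b) := by
  unfold Sf trP
  exact Pl.sub (Pl.ite _ (Pl.sum _ _ fun c => P0 _ _) Pl.zero) (P0 _ _)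

/-- right side for `u` -/
noncomputable def Gf (ω : Om) : II → XS :=
  Sum.elim (fun p => FAf (uA ω.1) (vP ω.2) p.1 p.2) (fun p => Ftf (uth ω.1) (vP ω.2) p.1 p.2)

lemma Gf0 (s : II) : Pl z0 (fun ω => Gf ω s) := by
  rcases s with ⟨a, i⟩ | ⟨i, a⟩
  · change Pl z0 (fun ω => FAf (uA ω.1) (vP ω.2) a i)
    unfold FAf
    exact Pl.sum _ _ fun b => Pl.mul (S0 _ _) (A0 _ _)
  · change Pl z0 (fun ω => Ftf (uth ω.1) (vP ω.2) i a)
    unfold Ftf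
    exact Pl.neg (Pl.sum _ _ fun b => Pl.mul (t0 _ _) (S0 _ _))

lemma idx_rep (j : Fin 6) : idx (rep1 j) (rep2 j) = j := by
  fin_cases j <;> rfl

lemma flux (ω : Om) (i a b : Fin 3) :
    (∑ k, (∑ c, uA ω.1 c i * uA ω.1 c k) * Ed k (vP ω.2 a b)) + be ω i a b
      = ∑ c, uA ω.1 c i * nab Ed (uA ω.1) (uth ω.1) (vP ω.2) c a b := by
  unfold be nab FR.Fd
  simp only [Fin.sum_univ_three]
  ring

lemma div (ω : Om) (a b : Fin 3) :
    ∑ i, Ed i (∑ c, uA ω.1 c i * nab Ed (uA ω.1) (uth ω.1) (vP ω.2) c a b) + Wf ω a b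
      = FPf Ed (uA ω.1) (uth ω.1) (vP ω.2) a b := by
  unfold FPf lapF Wf
  generalize nab Ed (uA ω.1) (uth ω.1) (vP ω.2) = N
  unfold FR.Fd
  simp only [Fin.sum_univ_three, map_add, Derivation.leibniz, smul_eq_mul]
  ring

end INS

open INS

theorem ins : G_INS := by
  choose G hG using Gf0
  choose β hβ using be1
  choose W hW using Wf2
  let D : QLD II (Fin 6) :=
    { G := G
      α := fun i k => ∑ c : Fin 3, MvPolynomial.X (Sum.inl (c, i)) * MvPolynomial.X (Sum.inl (c, k))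
      β := fun i j => β i (rep1 j) (rep2 j)
      W := fun j => W (rep1 j) (rep2 j) }
  have hα : ∀ (u : II → XS) (i k : Fin 3), (MvPolynomial.aeval u (D.α i k) : XS) =
      ∑ c, uA u c i * uA u c k := by
    intro u i k
    simp only [D, map_sum, map_mul, MvPolynomial.aeval_X]
    rfl
  refine ⟨D, ?_, ?_, ?_, ?_⟩
  · intro u v a i
    exact (hG (Sum.inl (a, i)) (u, v)).symm
  · intro u v i a
    exact (hG (Sum.inr (i, a)) (u, v)).symm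
  · intro u v j
    unfold QLD.FJ
    have h1 : ∀ i, (MvPolynomial.aeval (zj u v) (D.β i j) : XS) = be (u, v) i (rep1 j) (rep2 j) :=
      fun i => (hβ i (rep1 j) (rep2 j) (u, v)).symm
    have h2 : (MvPolynomial.aeval (zj' u v) (D.W j) : XS) = Wf (u, v) (rep1 j) (rep2 j) :=
      (hW (rep1 j) (rep2 j) (u, v)).symm
    have h3 : v j = vP v (rep1 j) (rep2 j) := by
      unfold vP
      rw [idx_rep]
    rw [h2]
    refine Eq.trans ?_ (div (u, v) (rep1 j) (rep2 j))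
    congr 1
    refine Finset.sum_congr rfl fun i _ => ?_
    congr 1
    rw [h1, ← flux]
    congr 1
    refine Finset.sum_congr rfl fun k _ => ?_
    rw [hα, h3]
  · intro u x ξ
    have h1 : ∀ i k, (MvPolynomial.aeval u (D.α i k) : XS).1 x =
        ∑ c, (uA u c i).1 x * (uA u c k).1 x := by
      intro i k
      rw [hα]
      simp [Fin.sum_univ_three]
    simp only [h1, Fin.sum_univ_three]
    ring

end Pool.Agent.Helper2.RI
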